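import Pool.Agent.Lib.MP_5205a5_lc.NMain
import Pool.Agent.FS.DistribSpectra.Indep

/-! Every finite distributive lattice is a degree spectrum on the finite-cofinite algebra. -/

namespace Pool.Agent.FS.DistribSpectra

open Pool.Agent.Shared.Oracle Pool.Agent.Lib.MP_5205a5_lc

theorem degree_le_iff {S T : Set ℕ} :
    degree S ≤ degree T ↔ ComputableIn {orc (ind T)} (ind S) := by
  rw [← orc_iff, ← chi_eq, ← chi_eq]
  exact Iff.rfl

theorem exists_bits (L : Type) [Finite L] [PartialOrder L] : ∃ (c ι : L → ℕ),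
    (∀ a b, (c a).testBit (ι b) = true ↔ b ≤ a) ∧
      ∀ a i, (c a).testBit i = true → ∃ b, ι b = i := by
  classical
  have := Fintype.ofFinite L
  obtain ⟨ι, hι⟩ := Countable.exists_injective_nat L
  have key : ∀ (s : Finset ℕ) i, (∑ j ∈ s, 2 ^ j).testBit i = true ↔ i ∈ s := fun s i => by
    rw [← Nat.mem_bitIndices, ← List.mem_toFinset, Finset.toFinset_bitIndices_sum_two_pow]
  refine ⟨fun a => ∑ j ∈ (Finset.univ.filter (· ≤ a)).image ι, 2 ^ j, ι, fun a b => ?_,
    fun a i h => ?_⟩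
  · rw [key, Finset.mem_image]
    exact ⟨fun ⟨x, h1, h2⟩ => hι h2 ▸ (Finset.mem_filter.1 h1).2,
      fun h => ⟨b, Finset.mem_filter.2 ⟨Finset.mem_univ _, h⟩, rfl⟩⟩
  · obtain ⟨b, -, hb⟩ := Finset.mem_image.1 ((key _ _).1 h)
    exact ⟨b, hb⟩

theorem exists_irred {L : Type} [DistribLattice L] [Finite L] [OrderTop L] {a b : L}
    (h : ¬ a ≤ b) : ∃ m, InfIrred m ∧ b ≤ m ∧ ¬ a ≤ m := by
  obtain ⟨s, h1, h2⟩ := exists_infIrred_decomposition b
  by_contra h3
  refine h (h1 ▸ Finset.le_inf fun m hm => by_contra fun h4 => h3 ⟨m, h2 hm, ?_, h4⟩)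
  exact h1 ▸ Finset.inf_le (f := id) hm

theorem lattice_spectrum (L : Type) [DistribLattice L] [Finite L] [Nonempty L] :
    ∃ G : ℕ → Bool, Nonempty (L ≃o DgSp (Rel G)) := by
  classical
  have := Fintype.ofFinite L
  letI : OrderTop L := Fintype.toOrderTop L
  have self : ∀ X : ℕ → Bool, ComputableIn {orc X} X := fun X => cin_orc rfl
  obtain ⟨c, ι, hc1, hc2⟩ := exists_bits L
  choose μ hμ hμ1 hμ2 using fun a : L => exists_copy_re (W_re (c a))
  obtain ⟨C, hC⟩ := countable_atoms.exists_eq_range ⟨_, μ ⊤, hμ ⊤, rfl⟩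
  have hC2 : ∀ ν : FC → ℕ, IsComputableCopy ν → ∃ j, C j = ind (ν '' atoms) := fun ν h1 => by
    have : ind (ν '' atoms) ∈ Set.range C := by
      rw [← hC]; exact ⟨ν, h1, rfl⟩
    exact this
  let T : ℕ → Bool := fun m => C m.unpair.1 m.unpair.2
  have hT : ∀ j, ComputableIn {orc T} (C j) := fun j =>
    cin_of_eq (cin_comp (f := T) (self T)
      (Primrec₂.natPair.comp (Primrec.const j) Primrec.id).computableIn) fun m => by simp [T]
  have hWT : ∀ a, ComputableIn {orc T} (W (c a)) := fun a => by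
    obtain ⟨j, hj⟩ := hC2 _ (hμ a)
    exact hμ2 a _ (hj ▸ hT j)
  obtain ⟨A, hA1, hA2⟩ : ∃ A : L → ℕ → Bool, (∀ a, a ≠ ⊤ → A a = W (c a)) ∧ A ⊤ = T :=
    ⟨fun a => if a = ⊤ then T else W (c a), fun a h => if_neg h, if_pos rfl⟩
  have hWA : ∀ a, ComputableIn {orc (A a)} (W (c a)) := fun a => by
    by_cases h : a = ⊤
    · rw [h, hA2]; exact hWT _
    · rw [hA1 a h]; exact self _
  have hmono : ∀ {a b}, a ≤ b → ComputableIn {orc (A b)} (A a) := by
    intro a b hab
    by_cases h : a = ⊤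
    · rw [h, top_le_iff.1 (h.ge.trans hab)]; exact self _
    · rw [hA1 a h]
      refine W_le (fun i hi => ?_) (hWA b)
      obtain ⟨x, rfl⟩ := hc2 a i hi
      exact (hc1 _ _).2 (((hc1 _ _).1 hi).trans hab)
  have hrefl : ∀ {a b}, ComputableIn {orc (A b)} (W (c a)) → a ≤ b := by
    intro a b h
    by_contra hab
    rw [hA1 b fun e => hab (le_top.trans e.ge)] at h
    exact W_not_le ((hc1 a a).2 le_rfl) (cin_trans h
      (W_le_V (Bool.eq_false_iff.2 fun e => hab ((hc1 b a).1 e))))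
  let S : ℕ → Finset L := fun j =>
    Finset.univ.filter fun m => InfIrred m ∧ ComputableIn {orc (A m)} (C j)
  let lev : ℕ → L := fun j => (S j).inf id
  have hl1 : ∀ j m, InfIrred m → ComputableIn {orc (A m)} (C j) → lev j ≤ m := fun j m h1 h2 =>
    Finset.inf_le (f := id) (Finset.mem_filter.2 ⟨Finset.mem_univ _, h1, h2⟩)
  have hl2 : ∀ j m, InfIrred m → lev j ≤ m → ComputableIn {orc (A m)} (C j) := fun j m h1 h2 => by
    obtain ⟨m', h3, h4⟩ := (infPrime_iff_infIrred.2 h1).finset_inf_le.1 h2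
    exact cin_trans (Finset.mem_filter.1 h3).2.2 (hmono h4)
  obtain ⟨D₀, hD₀⟩ := exists_not_cin T
  obtain ⟨f, hf⟩ := exists_surjective_nat (L × L)
  obtain ⟨G, hG1, hG2⟩ := exists_genericT
    (C := fun j => if j % 2 = 0 then C (j / 2) else A (lev (j / 2)))
    (Z := fun j => if j % 2 = 0 then A (lev (j / 2)) else C (j / 2))
    (B := fun e => if InfIrred (f e).1 ∧ ¬ (f e).2 ≤ (f e).1 then A (f e).1 else T)
    (D := fun e => if InfIrred (f e).1 ∧ ¬ (f e).2 ≤ (f e).1 then W (c (f e).2) else D₀)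
    (fun e => by
      by_cases h : InfIrred (f e).1 ∧ ¬ (f e).2 ≤ (f e).1
      · rw [if_pos h, if_pos h]; exact fun h' => h.2 (hrefl h')
      · rw [if_neg h, if_neg h]; exact hD₀)
    (fun e j => by
      by_cases h : InfIrred (f e).1 ∧ ¬ (f e).2 ≤ (f e).1
      · rw [if_pos h]
        by_cases hj : j % 2 = 0
        · rw [if_pos hj, if_pos hj]
          exact fun h' => hmono (hl1 _ _ h.1 h')
        · rw [if_neg hj, if_neg hj]
          exact fun h' => hl2 _ _ h.1 (hrefl (cin_trans (hWA _) h'))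
      · rw [if_neg h]
        by_cases hj : j % 2 = 0
        · rw [if_pos hj, if_pos hj]
          exact fun _ => hA2 ▸ hmono le_top
        · rw [if_neg hj, if_neg hj]
          exact fun _ => hT _)
  have g1 : ∀ m a, InfIrred m → ¬ a ≤ m → ¬ ComputableIn {orc G, orc (A m)} (W (c a)) := by
    intro m a h1 h2
    obtain ⟨e, he⟩ := hf (m, a)
    have h3 := hG1 e
    rw [he, if_pos ⟨h1, h2⟩, if_pos ⟨h1, h2⟩] at h3
    exact h3
  have g2 : ∀ j, ComputableIn {orc G, orc (C j)} (A (lev j)) := fun j => by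
    have h3 := hG2 (2 * j)
    rwa [if_pos (by omega), if_pos (by omega), show 2 * j / 2 = j by omega] at h3
  have g3 : ∀ j, ComputableIn {orc G, orc (A (lev j))} (C j) := fun j => by
    have h3 := hG2 (2 * j + 1)
    rwa [if_neg (by omega), if_neg (by omega), show (2 * j + 1) / 2 = j by omega] at h3
  let d : L → TuringDegree := fun a => degree {m | jn G (A a) m = true}
  have hdeg : ∀ (ν : FC → ℕ) j, IsComputableCopy ν → C j = ind (ν '' atoms) →
      degree (ν '' Rel G) = d (lev j) := by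
    intro ν j h1 h2
    refine degree_eq_iff.2 ?_
    rw [ind_setOf]
    refine ⟨rel_le h1 (h2 ▸ cin_trans₂ (g3 j) (cin_jn_left _ _) (cin_jn_right _ _))
      (cin_jn_left _ _), cin_jn (code_le h1 (self _)) ?_⟩
    exact cin_trans₂ (g2 j) (code_le h1 (self _)) (h2 ▸ atoms_le h1 (self _))
  have hmem : ∀ a, d a ∈ DgSp (Rel G) := fun a => by
    obtain ⟨j, hj⟩ := hC2 _ (hμ a)
    refine ⟨μ a, hμ a, ?_⟩
    rw [hdeg _ j (hμ a) hj]
    congr 1
    refine le_antisymm (Finset.le_inf fun m hm => ?_) (by_contra fun h => ?_)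
    · exact hrefl (hμ2 a _ (hj ▸ (Finset.mem_filter.1 hm).2.2))
    · obtain ⟨m, h1, h2, h3⟩ := exists_irred h
      exact h3 (hl1 j m h1 (hj ▸ hμ1 a _ (cin_trans (hWA a) (hmono h2))))
  have hle : ∀ a b, d a ≤ d b ↔ a ≤ b := fun a b => by
    refine degree_le_iff.trans ?_
    rw [ind_setOf, ind_setOf]
    refine ⟨fun h => by_contra fun hab => ?_,
      fun h => cin_jn (cin_jn_left _ _) (cin_trans (hmono h) (cin_jn_right _ _))⟩
    obtain ⟨m, h1, h2, h3⟩ := exists_irred hab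
    exact g1 m a h1 h3 (cin_trans (hWA a) (cin_trans (cin_jn_right G _) (cin_trans h
      (cin_jn (cin_orc (Or.inl rfl)) (cin_trans (hmono h2) (cin_orc (Or.inr rfl)))))))
  refine ⟨G, ⟨RelIso.ofSurjective (OrderEmbedding.ofMapLEIff
    (fun a => (⟨d a, hmem a⟩ : DgSp (Rel G))) fun a b => hle a b) ?_⟩⟩
  rintro ⟨x, ν, hν, rfl⟩
  obtain ⟨j, hj⟩ := hC2 ν hν
  exact ⟨lev j, Subtype.ext (hdeg ν j hν hj).symm⟩

end Pool.Agent.FS.DistribSpectra
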